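import Pool.Agent.L0h38.MON.Stm

/-!
# Project MON: groups with finitely many conjugacy classes
-/

set_option autoImplicit false

namespace Pool.Agent.L0h38.MON

open Pool.Agent.Q223.IS

theorem value_eq {G : Type} [Group G] (f : ℕ → G) (w : Wd) : value f w = ev f w := by
  induction w with
  | nil => rw [ev_nil]; rfl
  | cons q w ih =>
    rw [ev_cons, ← ih]
    have : value f (q :: w) = (if q.2 = true then f q.1 else (f q.1)⁻¹) * value f w := by
      simp [value]
    rw [this]
    congr 1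
    obtain ⟨i, b⟩ := q
    cases b
    · rw [ev_false]; simp
    · rw [ev_true]; simp

theorem exists_sub {G : Type} [Group G] {b : ℕ × List Wd} (e : PG b ≃* G) (f : ℕ → G)
    (hf : FinSupp f) : ∃ U : List Wd, ∀ w, e (ev (gen b) (sub U w)) = value f w := by
  obtain ⟨n, hn⟩ := hf
  choose u hu using fun i => gen_word b (e.symm (f i))
  refine ⟨(List.range n).map u, fun w => ?_⟩
  rw [ev_sub, value_eq]
  have := ev_map (fun i => ev (gen b) (((List.range n).map u).getD i [])) e.toMonoidHom w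
  refine Eq.trans this ?_
  congr 1
  funext i
  show e (ev (gen b) (((List.range n).map u).getD i [])) = f i
  rcases Nat.lt_or_ge i n with h | h
  · rw [List.getD_eq_getElem _ _ (by simpa using h)]
    simp [hu]
  · rw [List.getD_eq_default _ _ (by simpa using h), ev_nil, map_one, hn i h]

/-- the word of a conjugation -/
def cw (U : List Wd) (w r u : Wd) : Wd :=
  u ++ sub U w ++ FreeGroup.invRev u ++ FreeGroup.invRev r

theorem cw_pr {α : Type} [Primcodable α] (U : List Wd) {f g h : α → Wd} (hf : Primrec f)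
    (hg : Primrec g) (hh : Primrec h) : Primrec fun a => cw U (f a) (g a) (h a) :=
  Primrec.list_append.comp (Primrec.list_append.comp (Primrec.list_append.comp hh
    (sub_pr.comp (Primrec.const U) hf)) (invRev_pr.comp hh)) (invRev_pr.comp hg)

theorem chk_comp {α : Type} [Primcodable α] (b : ℕ × List Wd) {f : α → Wd} {g : α → Ct}
    (hf : Primrec f) (hg : Primrec g) : PrimrecPred fun a => Chk b (f a) (g a) :=
  chk_pr.comp (Primrec.pair (Primrec.const b) (Primrec.pair hf hg))

theorem conj_iff {G : Type} [Group G] {b : ℕ × List Wd} (e : PG b ≃* G) (f : ℕ → G)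
    {U : List Wd} (hU : ∀ w, e (ev (gen b) (sub U w)) = value f w) (w r : Wd) :
    IsConj (value f w) (e (ev (gen b) r)) ↔ ∃ u c, Chk b (cw U w r u) c := by
  have key : ∀ u, ev (gen b) (cw U w r u) = 1 ↔
      e (ev (gen b) u) * value f w * (e (ev (gen b) u))⁻¹ = e (ev (gen b) r) := by
    intro u
    unfold cw
    rw [ev_append, ev_append, ev_append, ev_inv, ev_inv, mul_inv_eq_one, ← hU, ← map_mul,
      ← map_inv, ← map_mul, e.injective.eq_iff]
  rw [isConj_iff]
  constructor
  · rintro ⟨c, hc⟩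
    obtain ⟨u, hu⟩ := gen_word b (e.symm c)
    refine ⟨u, (triv_iff b _).1 ((key u).2 ?_)⟩
    rw [hu, MulEquiv.apply_symm_apply, hc]
  · rintro ⟨u, hu⟩
    exact ⟨_, (key u).1 ((triv_iff b _).2 hu)⟩

theorem side (b : ℕ × List Wd) (U : List Wd) (L : List (Wd × Wd)) :
    REPred fun p : Wd × Wd => ∃ z : (Wd × Wd) × ((Wd × Wd) × (Ct × Ct)), (∃ q ∈ L, q = z.1) ∧
      (Chk b (cw U p.1 z.1.1 z.2.1.1) z.2.2.1 ∧ Chk b (cw U p.2 z.1.2 z.2.1.2) z.2.2.2) := by
  apply re_exists
  have hz : Primrec fun x : (Wd × Wd) × ((Wd × Wd) × ((Wd × Wd) × (Ct × Ct))) => x.2 :=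
    Primrec.snd
  have hp : Primrec fun x : (Wd × Wd) × ((Wd × Wd) × ((Wd × Wd) × (Ct × Ct))) => x.1 :=
    Primrec.fst
  refine PrimrecPred.and ?_ (PrimrecPred.and ?_ ?_)
  · exact pp_bex (Primrec.const L) (pp_eq Primrec.snd (Primrec.fst.comp (hz.comp Primrec.fst)))
  · exact chk_comp b (cw_pr U (Primrec.fst.comp hp) (Primrec.fst.comp (Primrec.fst.comp hz))
      (Primrec.fst.comp (Primrec.fst.comp (Primrec.snd.comp hz))))
      (Primrec.fst.comp (Primrec.snd.comp (Primrec.snd.comp hz)))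
  · exact chk_comp b (cw_pr U (Primrec.snd.comp hp) (Primrec.snd.comp (Primrec.fst.comp hz))
      (Primrec.snd.comp (Primrec.fst.comp (Primrec.snd.comp hz))))
      (Primrec.snd.comp (Primrec.snd.comp (Primrec.snd.comp hz)))

theorem DEC6 : S_DEC6 := by
  intro hcod G _ _ hfin R hR f hf
  classical
  obtain ⟨b, ⟨e⟩⟩ := hcod G
  obtain ⟨U, hU⟩ := exists_sub e f hf
  have := Fintype.ofFinite (ConjClasses G)
  choose rep hrep using fun c : ConjClasses G => c.exists_rep
  choose r hr using fun c : ConjClasses G => gen_word b (e.symm (rep c))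
  have hr' : ∀ c, e (ev (gen b) (r c)) = rep c := fun c => by
    rw [hr, MulEquiv.apply_symm_apply]
  have main : ∀ Q : G → G → Prop, (∀ a b x y, Q a b → Q (x * a * x⁻¹) (y * b * y⁻¹)) →
      REPred fun p : Wd × Wd => Q (value f p.1) (value f p.2) := by
    intro Q hQ
    refine (side b U (((Finset.univ : Finset (ConjClasses G × ConjClasses G)).filter
      (fun q => Q (rep q.1) (rep q.2))).toList.map (fun q => (r q.1, r q.2)))).of_eq ?_
    intro p
    constructor
    · rintro ⟨⟨q, ⟨u, u'⟩, ⟨c, c'⟩⟩, ⟨q', hq', rfl⟩, h1, h2⟩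
      obtain ⟨⟨a, a'⟩, ha, rfl⟩ := List.mem_map.1 hq'
      have ha' : Q (rep a) (rep a') := by simpa using ha
      have k1 := (conj_iff e f hU p.1 (r a)).2 ⟨u, c, h1⟩
      have k2 := (conj_iff e f hU p.2 (r a')).2 ⟨u', c', h2⟩
      rw [hr'] at k1 k2
      obtain ⟨x, hx⟩ := isConj_iff.1 k1.symm
      obtain ⟨y, hy⟩ := isConj_iff.1 k2.symm
      rw [← hx, ← hy]
      exact hQ _ _ x y ha'
    · intro h
      have k : ∀ g : G, IsConj g (rep (ConjClasses.mk g)) := by
        intro g
        rw [← ConjClasses.mk_eq_mk_iff_isConj]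
        exact (hrep (ConjClasses.mk g)).symm
      have k1 := k (value f p.1)
      have k2 := k (value f p.2)
      obtain ⟨x, hx⟩ := isConj_iff.1 k1
      obtain ⟨y, hy⟩ := isConj_iff.1 k2
      have h3 : Q (rep (ConjClasses.mk (value f p.1))) (rep (ConjClasses.mk (value f p.2))) := by
        rw [← hx, ← hy]
        exact hQ _ _ x y h
      rw [← hr'] at k1 k2
      obtain ⟨u, c, h1⟩ := (conj_iff e f hU p.1 _).1 k1
      obtain ⟨u', c', h2⟩ := (conj_iff e f hU p.2 _).1 k2
      refine ⟨((r (ConjClasses.mk (value f p.1)), r (ConjClasses.mk (value f p.2))), ((u, u'), (c, c'))), ⟨_, ?_, rfl⟩, h1, h2⟩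
      refine List.mem_map.2 ⟨(ConjClasses.mk (value f p.1), ConjClasses.mk (value f p.2)), ?_, rfl⟩
      simpa using h3
  rw [ComputablePred.computable_iff_re_compl_re']
  refine ⟨main R hR, main (fun a b => ¬ R a b) ?_⟩
  intro a b x y hab h
  apply hab
  have h1 := hR _ _ x⁻¹ y⁻¹ h
  have e1 : x⁻¹ * (x * a * x⁻¹) * x⁻¹⁻¹ = a := by group
  have e2 : y⁻¹ * (y * b * y⁻¹) * y⁻¹⁻¹ = b := by group
  rwa [e1, e2] at h1

end Pool.Agent.L0h38.MON
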