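import Pool.Agent.L0h38.MON.WP3
import Pool.Agent.L0h91.MON.GEN3

/-!
# Project MON: the membership problem of finitely presented monsters of type (3)
-/

set_option autoImplicit false
set_option synthInstance.maxSize 2000

namespace Pool.Agent.L0h38.MON

open Pool.Agent.Q223.IS Pool.Agent.L0h91.MON

/-- certificates of nontriviality -/
abbrev Nt : Type := List Ct × ((ℕ × Bool) × Ct)

def NO (b : ℕ × List Wd) (ζ : Wd) (m : ℕ) (r : Wd) (c : Nt) : Prop :=
  Kill b r c.1 ∨ Pw b ζ m r c.2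

theorem no_pr (b : ℕ × List Wd) (ζ : Wd) (m : ℕ) {α : Type} [Primcodable α] {f : α → Wd}
    {g : α → Nt} (hf : Primrec f) (hg : Primrec g) :
    PrimrecPred fun a => NO b ζ m (f a) (g a) :=
  PrimrecPred.or (kill_pr b hf (Primrec.fst.comp hg)) (pw_pr b ζ m hf (Primrec.snd.comp hg))

theorem ne_iff (hcen : S_CEN) (hnab : S_NAB) (b : ℕ × List Wd) (hinf : Infinite (PG b))
    (hfg : Group.FG (PG b)) (h3 : Type3 (PG b)) : ∃ (ζ : Wd) (m : ℕ), ∀ r : Wd,
      (∃ c, NO b ζ m r c) ↔ ev (gen b) r ≠ 1 := by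
  have hZt : Subgroup.center (PG b) ≠ ⊤ := hnab (PG b) hinf h3
  obtain ⟨⟨z, hzc⟩, hgen⟩ := h3.2 _ hZt
  have hz : ∀ x ∈ Subgroup.center (PG b), ∃ k : ℤ, z ^ k = x := by
    intro x hx
    obtain ⟨k, hk⟩ := hgen ⟨x, hx⟩
    exact ⟨k, by simpa using congrArg Subtype.val hk⟩
  obtain ⟨ζ, hζ⟩ := gen_word b z
  refine ⟨ζ, orderOf z, fun r => ?_⟩
  constructor
  · rintro ⟨⟨C, d⟩, h | h⟩ h1
    · have h2 := (kill_iff b _).1 ⟨C, h⟩
      obtain ⟨F, hF⟩ := fromAdd b _ h1
      have h4 : ∀ i, gen b i = 1 := by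
        intro i
        rcases Nat.lt_or_ge i b.1 with hi | hi
        · rw [← hF, h2 i hi, map_one]
        · exact gen_big b hi
      have h5 : MonoidHom.id (PG b) = 1 := PG_ext b (fun i => by
        rw [h4 i, map_one, map_one])
      have h6 : ∀ y : PG b, y = 1 := fun y => DFunLike.congr_fun h5 y
      obtain ⟨x, y, hxy⟩ := exists_pair_ne (PG b)
      apply hxy
      rw [h6 x, h6 y]
    · obtain ⟨hk, hc⟩ := h
      obtain ⟨⟨k, s⟩, c⟩ := d
      have h2 := (triv_iff b _).2 ⟨c, hc⟩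
      rw [ev_append, h1, one_mul] at h2
      apply hk
      have h4 : z ^ k = 1 := by
        rw [← hζ, ← ev_rp]
        cases s
        · simp only [Bool.false_eq_true, if_false] at h2
          rw [ev_inv, inv_eq_one] at h2
          exact h2
        · simp only [if_true] at h2
          exact h2
      exact Nat.mod_eq_zero_of_dvd (orderOf_dvd_of_pow_eq_one h4)
  · intro h1
    by_cases hx : ev (gen b) r ∈ Subgroup.center (PG b)
    · obtain ⟨k, hk⟩ := hz _ hx
      have key : ∀ (n : ℕ) (s : Bool), (if s = true then z ^ n else (z ^ n)⁻¹) =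
          (ev (gen b) r)⁻¹ → ∃ c, Pw b ζ (orderOf z) r ((n, s), c) := by
        intro n s hs
        have h5 : ev (gen b) (r ++ (if s = true then rp n ζ else
            FreeGroup.invRev (rp n ζ))) = 1 := by
          rw [ev_append]
          have : ev (gen b) (if s = true then rp n ζ else
            FreeGroup.invRev (rp n ζ)) = (ev (gen b) r)⁻¹ := by
            rw [← hs]
            cases s
            · simp only [Bool.false_eq_true, if_false]
              rw [ev_inv, ev_rp, hζ]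
            · simp only [if_true]
              rw [ev_rp, hζ]
          rw [this, mul_inv_cancel]
        obtain ⟨c, hc⟩ := (triv_iff b _).1 h5
        refine ⟨c, ?_, hc⟩
        intro hm
        apply h1
        have h6 : z ^ n = 1 := orderOf_dvd_iff_pow_eq_one.1 (Nat.dvd_of_mod_eq_zero hm)
        rw [h6] at hs
        have h7 : (ev (gen b) r)⁻¹ = 1 := by rw [← hs]; simp
        exact inv_eq_one.1 h7
      obtain ⟨n, rfl | rfl⟩ := Int.eq_nat_or_neg k
      · obtain ⟨c, hc⟩ := key n false (by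
          simp only [Bool.false_eq_true, if_false]
          rw [← hk, zpow_natCast])
        exact ⟨([], ((n, false), c)), Or.inr hc⟩
      · obtain ⟨c, hc⟩ := key n true (by
          simp only [if_true]
          rw [← hk, zpow_neg, zpow_natCast, inv_inv])
        exact ⟨([], ((n, true), c)), Or.inr hc⟩
    · obtain ⟨F, hF⟩ := toAdd b r
      have hK : F.ker = ⊤ := by
        by_contra hne
        apply hx
        apply hcen (PG b) hinf h3 _ inferInstance hne
        rw [MonoidHom.mem_ker, ev_map]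
        have : (fun i => F (gen b i)) = gen (addR b r) := funext hF
        rw [this]
        exact PG_rel (addR b r) List.mem_cons_self
      obtain ⟨C, hC⟩ := (kill_iff b r).2 (by
        intro i _
        have h2 : gen b i ∈ F.ker := by rw [hK]; trivial
        rw [MonoidHom.mem_ker, hF] at h2
        exact h2)
      exact ⟨(C, ((0, false), [])), Or.inl hC⟩

/-- powers with sign -/
def pw (V : Wd) (k : ℕ × Bool) : Wd :=
  if k.2 = true then rp k.1 V else FreeGroup.invRev (rp k.1 V)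

def sg (k : ℕ × Bool) : ℤ := if k.2 = true then (k.1 : ℤ) else -(k.1 : ℤ)

theorem ev_pw {M : Type} [Group M] (x : ℕ → M) (V : Wd) (k : ℕ × Bool) :
    ev x (pw V k) = ev x V ^ sg k := by
  obtain ⟨n, s⟩ := k
  cases s
  · simp only [pw, sg, Bool.false_eq_true, if_false]
    rw [ev_inv, ev_rp, zpow_neg, zpow_natCast]
  · simp only [pw, sg, if_true]
    rw [ev_rp, zpow_natCast]

theorem sg_surj (j : ℤ) : ∃ k : ℕ × Bool, sg k = j ∧ k.1 = j.natAbs := by
  obtain ⟨n, rfl | rfl⟩ := Int.eq_nat_or_neg j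
  · exact ⟨(n, true), by simp [sg], by simp⟩
  · exact ⟨(n, false), by simp [sg], by simp⟩

theorem sg_dvd (k : ℕ × Bool) (m : ℕ) : k.1 % m = 0 ↔ (m : ℤ) ∣ sg k := by
  rw [← Nat.dvd_iff_mod_eq_zero]
  obtain ⟨n, s⟩ := k
  cases s
  · simp only [sg, Bool.false_eq_true, if_false]
    rw [dvd_neg, Int.natCast_dvd_natCast]
  · simp only [sg, if_true]
    rw [Int.natCast_dvd_natCast]

theorem pw_pr' {α : Type} [Primcodable α] {f : α → Wd} {g : α → ℕ × Bool} (hf : Primrec f)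
    (hg : Primrec g) : Primrec fun a => pw (f a) (g a) := by
  unfold pw
  exact Primrec.ite (pp_eq (Primrec.snd.comp hg) (Primrec.const true))
    (rp_pr (Primrec.fst.comp hg) hf) (invRev_pr.comp (rp_pr (Primrec.fst.comp hg) hf))

/-- all words are powers of `V`, with exponents divisible by `m` -/
def AP (b : ℕ × List Wd) (M : List Wd) (V : Wd) (m : ℕ) (D : List ((ℕ × Bool) × Ct)) : Prop :=
  ∀ w ∈ M, ∃ d ∈ D, d.1.1 % m = 0 ∧ Chk b (w ++ FreeGroup.invRev (pw V d.1)) d.2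

theorem ap_pr (b : ℕ × List Wd) {α : Type} [Primcodable α] {f : α → List Wd} {g : α → Wd}
    {h : α → ℕ} {k : α → List ((ℕ × Bool) × Ct)} (hf : Primrec f) (hg : Primrec g)
    (hh : Primrec h) (hk : Primrec k) : PrimrecPred fun a => AP b (f a) (g a) (h a) (k a) := by
  unfold AP
  refine pp_ball hf ?_
  refine pp_bex (hk.comp Primrec.fst) ?_
  refine PrimrecPred.and ?_ ?_
  · exact pp_eq (Primrec.nat_mod.comp (Primrec.fst.comp (Primrec.fst.comp Primrec.snd))
      (hh.comp (Primrec.fst.comp Primrec.fst))) (Primrec.const 0)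
  · exact chk_comp b (Primrec.list_append.comp (Primrec.snd.comp Primrec.fst)
      (invRev_pr.comp (pw_pr' (hg.comp (Primrec.fst.comp Primrec.fst))
        (Primrec.fst.comp Primrec.snd)))) (Primrec.snd.comp Primrec.snd)

theorem ap_iff (b : ℕ × List Wd) (M : List Wd) (V : Wd) (m : ℕ) :
    (∃ D, AP b M V m D) ↔ ∀ w ∈ M, ∃ j : ℤ, (m : ℤ) ∣ j ∧ ev (gen b) w = ev (gen b) V ^ j := by
  constructor
  · rintro ⟨D, hD⟩ w hw
    obtain ⟨d, -, h1, h2⟩ := hD w hw
    refine ⟨sg d.1, (sg_dvd _ _).1 h1, ?_⟩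
    have h3 := (triv_iff b _).2 ⟨d.2, h2⟩
    rw [ev_append, ev_inv, mul_inv_eq_one, ev_pw] at h3
    exact h3
  · intro h
    induction M with
    | nil => exact ⟨[], by simp [AP]⟩
    | cons w M ih =>
      obtain ⟨D, hD⟩ := ih (fun w hw => h w (List.mem_cons_of_mem _ hw))
      obtain ⟨j, hj1, hj2⟩ := h w List.mem_cons_self
      obtain ⟨k, hk, -⟩ := sg_surj j
      obtain ⟨c, hc⟩ := (triv_iff b (w ++ FreeGroup.invRev (pw V k))).1 (by
        rw [ev_append, ev_inv, mul_inv_eq_one, ev_pw, hk]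
        exact hj2)
      refine ⟨(k, c) :: D, ?_⟩
      intro w' hw'
      rcases List.mem_cons.1 hw' with rfl | hw'
      · exact ⟨_, List.mem_cons_self, (sg_dvd _ _).2 (by rw [hk]; exact hj1), hc⟩
      · obtain ⟨d, hd, h1⟩ := hD w' hw'
        exact ⟨d, List.mem_cons_of_mem _ hd, h1⟩

theorem clo_le {b : ℕ × List Wd} {M : List Wd} {v : PG b} {m : ℕ}
    (h : ∀ w ∈ M, ∃ j : ℤ, (m : ℤ) ∣ j ∧ ev (gen b) w = v ^ j) {g : PG b} (hg : g ∈ Clo b M) :
    ∃ j : ℤ, (m : ℤ) ∣ j ∧ g = v ^ j := by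
  unfold Clo at hg
  induction hg using Subgroup.closure_induction with
  | mem x hx =>
    obtain ⟨w, hw, rfl⟩ := hx
    exact h w hw
  | one => exact ⟨0, dvd_zero _, by rw [zpow_zero]⟩
  | mul x y _ _ hx hy =>
    obtain ⟨i, hi, rfl⟩ := hx
    obtain ⟨j, hj, rfl⟩ := hy
    exact ⟨i + j, dvd_add hi hj, by rw [zpow_add]⟩
  | inv x _ hx =>
    obtain ⟨i, hi, rfl⟩ := hx
    exact ⟨-i, (dvd_neg).2 hi, by rw [zpow_neg]⟩

abbrev PD : Type := List ((ℕ × Bool) × Ct)
abbrev C1 : Type := Wd × (PD × Nt)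
abbrev C2 : Type := Wd × (ℕ × ((ℕ × Bool) × (Ct × (PD × Nt))))
abbrev C3 : Type := Wd × (ℕ × (Ct × (PD × List Nt)))

def N1 (b : ℕ × List Wd) (ζ : Wd) (m : ℕ) (M : List Wd) (y : Wd) (c : C1) : Prop :=
  AP b M c.1 1 c.2.1 ∧ NO b ζ m (cmw c.1 y) c.2.2

def N2 (b : ℕ × List Wd) (ζ : Wd) (m N : ℕ) (M : List Wd) (y : Wd) (c : C2) : Prop :=
  AP b M c.1 c.2.1 c.2.2.2.2.1 ∧ ¬ (c.2.2.1.1 % c.2.1 = 0) ∧
    Chk b (y ++ FreeGroup.invRev (pw c.1 c.2.2.1)) c.2.2.2.1 ∧
    NO b ζ m (rp N c.1) c.2.2.2.2.2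

def N3 (b : ℕ × List Wd) (ζ : Wd) (m : ℕ) (M : List Wd) (y : Wd) (c : C3) : Prop :=
  AP b M c.1 1 c.2.2.2.1 ∧ ¬ (c.2.1 = 0) ∧ Chk b (rp c.2.1 c.1) c.2.2.1 ∧
    ∀ j ∈ List.range c.2.1, ∃ d ∈ c.2.2.2.2, NO b ζ m (y ++ FreeGroup.invRev (rp j c.1)) d

section Sound

variable {b : ℕ × List Wd} {ζ : Wd} {m : ℕ}
  (hne : ∀ r : Wd, (∃ c, NO b ζ m r c) ↔ ev (gen b) r ≠ 1)

include hne

theorem sound1 {M : List Wd} {y : Wd} {c : C1} (h : N1 b ζ m M y c) :
    ev (gen b) y ∉ Clo b M := by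
  intro hy
  obtain ⟨h1, h2⟩ := h
  obtain ⟨j, -, hj⟩ := clo_le ((ap_iff b M c.1 1).1 ⟨_, h1⟩) hy
  apply (hne _).1 ⟨_, h2⟩
  rw [ev_cmw, hj]
  exact Commute.self_zpow _ _

theorem sound2 {N : ℕ} (hN0 : 0 < N) (hN : ∀ g : PG b, IsOfFinOrder g → g ^ N = 1)
    {M : List Wd} {y : Wd} {c : C2} (h : N2 b ζ m N M y c) : ev (gen b) y ∉ Clo b M := by
  intro hy
  obtain ⟨h1, h2, h3, h4⟩ := h
  obtain ⟨j, hj1, hj2⟩ := clo_le ((ap_iff b M c.1 _).1 ⟨_, h1⟩) hy
  have h5 := (triv_iff b _).2 ⟨_, h3⟩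
  rw [ev_append, ev_inv, mul_inv_eq_one, ev_pw, hj2] at h5
  have h6 := (hne _).1 ⟨_, h4⟩
  rw [ev_rp] at h6
  have h7 : ¬ IsOfFinOrder (ev (gen b) c.1) := fun h => h6 (hN _ h)
  have h8 := (injective_zpow_iff_not_isOfFinOrder.2 h7) h5
  apply h2
  rw [sg_dvd, ← h8]
  exact hj1

theorem sound3 {M : List Wd} {y : Wd} {c : C3} (h : N3 b ζ m M y c) :
    ev (gen b) y ∉ Clo b M := by
  intro hy
  obtain ⟨h1, h2, h3, h4⟩ := h
  obtain ⟨j, -, hj⟩ := clo_le ((ap_iff b M c.1 _).1 ⟨_, h1⟩) hy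
  have h5 := (triv_iff b _).2 ⟨_, h3⟩
  rw [ev_rp] at h5
  have hn : (0 : ℤ) < c.2.1 := by
    have := Nat.pos_of_ne_zero h2
    exact_mod_cast this
  have h6 : 0 ≤ j % (c.2.1 : ℤ) := Int.emod_nonneg _ hn.ne'
  have h7 : j % (c.2.1 : ℤ) < c.2.1 := Int.emod_lt_of_pos _ hn
  obtain ⟨i, hi⟩ := Int.eq_ofNat_of_zero_le h6
  have h8 : i < c.2.1 := by
    have : (i : ℤ) < c.2.1 := by rw [← hi]; exact h7
    exact_mod_cast this
  obtain ⟨d, -, hd⟩ := h4 i (List.mem_range.2 h8)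
  apply (hne _).1 ⟨_, hd⟩
  rw [ev_append, ev_inv, ev_rp, mul_inv_eq_one, hj]
  have h9 := Int.emod_add_mul_ediv j (c.2.1 : ℤ)
  rw [← h9, zpow_add, zpow_mul, zpow_natCast, h5, one_zpow, mul_one, hi]
  exact zpow_natCast _ _

theorem complete3 {M : List Wd} {y : Wd} (hy : ev (gen b) y ∉ Clo b M) {u : PG b}
    (hu : u ∈ Clo b M) (hgen : ∀ g ∈ Clo b M, ∃ j : ℤ, g = u ^ j) (hf : IsOfFinOrder u) :
    ∃ c, N3 b ζ m M y c := by
  obtain ⟨V, hV⟩ := gen_word b u
  obtain ⟨n, hn, hn1⟩ := isOfFinOrder_iff_pow_eq_one.1 hf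
  obtain ⟨D, hD⟩ := (ap_iff b M V 1).2 (by
    intro w hw
    obtain ⟨j, hj⟩ := hgen _ (Subgroup.subset_closure ⟨w, hw, rfl⟩)
    exact ⟨j, by simp, by rw [hV, hj]⟩)
  obtain ⟨c, hc⟩ := (triv_iff b (rp n V)).1 (by rw [ev_rp, hV, hn1])
  have hE : ∀ k : ℕ, ∃ E : List Nt, ∀ j ∈ List.range k, ∃ d ∈ E,
      NO b ζ m (y ++ FreeGroup.invRev (rp j V)) d := by
    intro k
    induction k with
    | zero => exact ⟨[], by simp⟩
    | succ k ih =>
      obtain ⟨E, hE⟩ := ih
      obtain ⟨d, hd⟩ := (hne (y ++ FreeGroup.invRev (rp k V))).2 (by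
        rw [ev_append, ev_inv, ev_rp, hV]
        intro h
        rw [mul_inv_eq_one] at h
        exact hy (h ▸ pow_mem hu k))
      refine ⟨d :: E, ?_⟩
      intro j hj
      rw [List.range_succ, List.mem_append, List.mem_singleton] at hj
      rcases hj with hj | rfl
      · obtain ⟨d', h1, h2⟩ := hE j hj
        exact ⟨d', List.mem_cons_of_mem _ h1, h2⟩
      · exact ⟨d, List.mem_cons_self, hd⟩
  obtain ⟨E, hE⟩ := hE n
  exact ⟨(V, (n, (c, (D, E)))), hD, hn.ne', hc, hE⟩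

theorem complete12 (hnc : Subgroup.center (PG b) ≠ ⊤) (h3 : Type3 (PG b)) {N : ℕ} (hN0 : 0 < N)
    {M : List Wd} {y : Wd} (hy : ev (gen b) y ∉ Clo b M) {u : PG b}
    (hu : u ∈ Clo b M) (hgen : ∀ g ∈ Clo b M, ∃ j : ℤ, g = u ^ j) (hf : ¬ IsOfFinOrder u) :
    (∃ c, N1 b ζ m M y c) ∨ ∃ c, N2 b ζ m N M y c := by
  by_cases hcom : Commute u (ev (gen b) y)
  · right
    have hH : Subgroup.closure {u, ev (gen b) y} ≠ ⊤ := by
      intro ht
      apply hnc
      rw [eq_top_iff, ← ht, Subgroup.closure_le]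
      have hcent : ∀ x : PG b, Commute x u → Commute x (ev (gen b) y) →
          x ∈ Subgroup.center (PG b) := by
        intro x h1 h2
        rw [Subgroup.mem_center_iff]
        intro g
        have hg : g ∈ Subgroup.closure {u, ev (gen b) y} := by rw [ht]; trivial
        have hle : Subgroup.closure {u, ev (gen b) y} ≤ Subgroup.centralizer {x} := by
          rw [Subgroup.closure_le]
          rintro z (rfl | rfl)
          · exact Subgroup.mem_centralizer_singleton_iff.2 h1.symm.eq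
          · exact Subgroup.mem_centralizer_singleton_iff.2 h2.symm.eq
        exact Subgroup.mem_centralizer_singleton_iff.1 (hle hg)
      rintro z (rfl | rfl)
      · exact hcent _ (Commute.refl _) hcom
      · exact hcent _ hcom.symm (Commute.refl _)
    obtain ⟨⟨v, hv⟩, hvg⟩ := h3.2 _ hH
    have hpow : ∀ g ∈ Subgroup.closure {u, ev (gen b) y}, ∃ j : ℤ, g = v ^ j := by
      intro g hg
      obtain ⟨j, hj⟩ := hvg ⟨g, hg⟩
      exact ⟨j, by simpa using (congrArg Subtype.val hj).symm⟩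
    obtain ⟨a, ha⟩ := hpow u (Subgroup.subset_closure (by simp))
    obtain ⟨k, hk⟩ := hpow (ev (gen b) y) (Subgroup.subset_closure (by simp))
    obtain ⟨V, hV⟩ := gen_word b v
    obtain ⟨D, hD⟩ := (ap_iff b M V a.natAbs).2 (by
      intro w hw
      obtain ⟨j, hj⟩ := hgen _ (Subgroup.subset_closure ⟨w, hw, rfl⟩)
      refine ⟨a * j, ?_, by rw [hV, hj, ha, zpow_mul]⟩
      exact Dvd.dvd.mul_right (Int.natAbs_dvd.2 dvd_rfl) j)
    obtain ⟨k', hk', -⟩ := sg_surj k
    obtain ⟨cy, hcy⟩ := (triv_iff b (y ++ FreeGroup.invRev (pw V k'))).1 (by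
      rw [ev_append, ev_inv, mul_inv_eq_one, ev_pw, hV, hk', hk])
    obtain ⟨c, hc⟩ := (hne (rp N V)).2 (by
      rw [ev_rp, hV]
      intro h
      apply hf
      rw [isOfFinOrder_iff_pow_eq_one]
      refine ⟨N, hN0, ?_⟩
      rw [ha, ← zpow_natCast, ← zpow_mul, mul_comm, zpow_mul, zpow_natCast, h, one_zpow])
    refine ⟨(V, (a.natAbs, (k', (cy, (D, c))))), hD, ?_, hcy, hc⟩
    intro h
    have h1 := (sg_dvd k' a.natAbs).1 h
    rw [hk', Int.natAbs_dvd] at h1
    obtain ⟨t, rfl⟩ := h1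
    apply hy
    rw [hk, zpow_mul, ← ha]
    exact zpow_mem hu t
  · left
    obtain ⟨V, hV⟩ := gen_word b u
    obtain ⟨D, hD⟩ := (ap_iff b M V 1).2 (by
      intro w hw
      obtain ⟨j, hj⟩ := hgen _ (Subgroup.subset_closure ⟨w, hw, rfl⟩)
      exact ⟨j, by simp, by rw [hV, hj]⟩)
    obtain ⟨c, hc⟩ := (hne (cmw V y)).2 (by
      rw [Ne, ev_cmw, hV]
      exact hcom)
    exact ⟨(V, (D, c)), hD, hc⟩

end Sound

theorem n1_pr (b : ℕ × List Wd) (ζ : Wd) (m : ℕ) :
    PrimrecPred fun x : (List Wd × Wd) × C1 => N1 b ζ m x.1.1 x.1.2 x.2 := by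
  unfold N1
  have hM : Primrec fun x : (List Wd × Wd) × C1 => x.1.1 := Primrec.fst.comp Primrec.fst
  have hy : Primrec fun x : (List Wd × Wd) × C1 => x.1.2 := Primrec.snd.comp Primrec.fst
  have hV : Primrec fun x : (List Wd × Wd) × C1 => x.2.1 := Primrec.fst.comp Primrec.snd
  have hR : Primrec fun x : (List Wd × Wd) × C1 => x.2.2 := Primrec.snd.comp Primrec.snd
  exact PrimrecPred.and (ap_pr b hM hV (Primrec.const 1) (Primrec.fst.comp hR))
    (no_pr b ζ m (cmw_pr hV hy) (Primrec.snd.comp hR))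

theorem n2_pr (b : ℕ × List Wd) (ζ : Wd) (m N : ℕ) :
    PrimrecPred fun x : (List Wd × Wd) × C2 => N2 b ζ m N x.1.1 x.1.2 x.2 := by
  unfold N2
  have hM : Primrec fun x : (List Wd × Wd) × C2 => x.1.1 := Primrec.fst.comp Primrec.fst
  have hy : Primrec fun x : (List Wd × Wd) × C2 => x.1.2 := Primrec.snd.comp Primrec.fst
  have hV : Primrec fun x : (List Wd × Wd) × C2 => x.2.1 := Primrec.fst.comp Primrec.snd
  have hR : Primrec fun x : (List Wd × Wd) × C2 => x.2.2 := Primrec.snd.comp Primrec.snd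
  have hm : Primrec fun x : (List Wd × Wd) × C2 => x.2.2.1 := Primrec.fst.comp hR
  have hk : Primrec fun x : (List Wd × Wd) × C2 => x.2.2.2.1 :=
    Primrec.fst.comp (Primrec.snd.comp hR)
  have hT : Primrec fun x : (List Wd × Wd) × C2 => x.2.2.2.2 :=
    Primrec.snd.comp (Primrec.snd.comp hR)
  refine PrimrecPred.and (ap_pr b hM hV hm (Primrec.fst.comp (Primrec.snd.comp hT)))
    (PrimrecPred.and ?_ (PrimrecPred.and ?_ ?_))
  · exact PrimrecPred.not (pp_eq (Primrec.nat_mod.comp (Primrec.fst.comp hk) hm)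
      (Primrec.const 0))
  · exact chk_comp b (Primrec.list_append.comp hy (invRev_pr.comp (pw_pr' hV hk)))
      (Primrec.fst.comp hT)
  · exact no_pr b ζ m (rp_pr (Primrec.const N) hV) (Primrec.snd.comp (Primrec.snd.comp hT))

theorem n3_pr (b : ℕ × List Wd) (ζ : Wd) (m : ℕ) :
    PrimrecPred fun x : (List Wd × Wd) × C3 => N3 b ζ m x.1.1 x.1.2 x.2 := by
  unfold N3
  have hM : Primrec fun x : (List Wd × Wd) × C3 => x.1.1 := Primrec.fst.comp Primrec.fst
  have hy : Primrec fun x : (List Wd × Wd) × C3 => x.1.2 := Primrec.snd.comp Primrec.fst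
  have hV : Primrec fun x : (List Wd × Wd) × C3 => x.2.1 := Primrec.fst.comp Primrec.snd
  have hR : Primrec fun x : (List Wd × Wd) × C3 => x.2.2 := Primrec.snd.comp Primrec.snd
  have hn : Primrec fun x : (List Wd × Wd) × C3 => x.2.2.1 := Primrec.fst.comp hR
  have hc : Primrec fun x : (List Wd × Wd) × C3 => x.2.2.2.1 :=
    Primrec.fst.comp (Primrec.snd.comp hR)
  have hT : Primrec fun x : (List Wd × Wd) × C3 => x.2.2.2.2 :=
    Primrec.snd.comp (Primrec.snd.comp hR)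
  refine PrimrecPred.and (ap_pr b hM hV (Primrec.const 1) (Primrec.fst.comp hT))
    (PrimrecPred.and ?_ (PrimrecPred.and ?_ ?_))
  · exact PrimrecPred.not (pp_eq hn (Primrec.const 0))
  · exact chk_comp b (rp_pr hn hV) hc
  · refine pp_ball (Primrec.list_range.comp hn) ?_
    refine pp_bex ((Primrec.snd.comp hT).comp Primrec.fst) ?_
    exact no_pr b ζ m (Primrec.list_append.comp (hy.comp (Primrec.fst.comp Primrec.fst))
      (invRev_pr.comp (rp_pr (Primrec.snd.comp Primrec.fst)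
        (hV.comp (Primrec.fst.comp Primrec.fst))))) Primrec.snd

/-- the torsion of `G` is of bounded exponent, or `G` is a torsion group -/
def OkTors (G : Type) [Group G] : Prop :=
  (∃ N : ℕ, 0 < N ∧ ∀ g : G, (∃ n : ℕ, 0 < n ∧ g ^ n = 1) → g ^ N = 1) ∨
    ∀ g : G, ∃ n : ℕ, 0 < n ∧ g ^ n = 1

theorem mem_core (hcen : S_CEN) (hnab : S_NAB) (b : ℕ × List Wd) (hinf : Infinite (PG b))
    (hfg : Group.FG (PG b)) (h3 : Type3 (PG b)) (hT : OkTors (PG b)) :
    REPred fun p : List Wd × Wd => ev (gen b) p.2 ∉ Clo b p.1 := by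
  obtain ⟨ζ, m, hne⟩ := ne_iff hcen hnab b hinf hfg h3
  have hnc : Subgroup.center (PG b) ≠ ⊤ := hnab (PG b) hinf h3
  have hcyc : ∀ p : List Wd × Wd, ev (gen b) p.2 ∉ Clo b p.1 →
      ∃ u ∈ Clo b p.1, ∀ g ∈ Clo b p.1, ∃ j : ℤ, g = u ^ j := by
    intro p hp
    have ht : Clo b p.1 ≠ ⊤ := fun h => hp (by rw [h]; trivial)
    obtain ⟨⟨u, hu⟩, hug⟩ := h3.2 _ ht
    refine ⟨u, hu, fun g hg => ?_⟩
    obtain ⟨j, hj⟩ := hug ⟨g, hg⟩
    exact ⟨j, by simpa using (congrArg Subtype.val hj).symm⟩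
  rcases hT with ⟨N, hN0, hN⟩ | hT
  · have hN' : ∀ g : PG b, IsOfFinOrder g → g ^ N = 1 := fun g hg =>
      hN g (isOfFinOrder_iff_pow_eq_one.1 hg)
    refine (re_exists (β := C1 × (C2 × C3)) (R := fun (p : List Wd × Wd) c =>
      N1 b ζ m p.1 p.2 c.1 ∨ (N2 b ζ m N p.1 p.2 c.2.1 ∨ N3 b ζ m p.1 p.2 c.2.2)) ?_).of_eq ?_
    · refine PrimrecPred.or ?_ (PrimrecPred.or ?_ ?_)
      · exact (n1_pr b ζ m).comp (Primrec.pair Primrec.fst (Primrec.fst.comp Primrec.snd))
      · exact (n2_pr b ζ m N).comp (Primrec.pair Primrec.fst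
          (Primrec.fst.comp (Primrec.snd.comp Primrec.snd)))
      · exact (n3_pr b ζ m).comp (Primrec.pair Primrec.fst
          (Primrec.snd.comp (Primrec.snd.comp Primrec.snd)))
    · intro p
      constructor
      · rintro ⟨c, h | h | h⟩
        · exact sound1 hne h
        · exact sound2 hne hN0 hN' h
        · exact sound3 hne h
      · intro hp
        obtain ⟨u, hu, hgen⟩ := hcyc p hp
        by_cases hf : IsOfFinOrder u
        · obtain ⟨c, hc⟩ := complete3 hne hp hu hgen hf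
          exact ⟨(([], ([], ([], ((0, false), [])))), (([], (0, ((0, false), ([], ([], ([], ((0, false), []))))))), c)), Or.inr (Or.inr hc)⟩
        · rcases complete12 hne hnc h3 hN0 hp hu hgen hf with ⟨c, hc⟩ | ⟨c, hc⟩
          · exact ⟨(c, (([], (0, ((0, false), ([], ([], ([], ((0, false), []))))))),
              ([], (0, ([], ([], [])))))), Or.inl hc⟩
          · exact ⟨(([], ([], ([], ((0, false), [])))), (c, ([], (0, ([], ([], [])))))),
              Or.inr (Or.inl hc)⟩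
  · refine (re_exists (β := C3) (R := fun (p : List Wd × Wd) c =>
      N3 b ζ m p.1 p.2 c) (n3_pr b ζ m)).of_eq ?_
    intro p
    constructor
    · rintro ⟨c, h⟩
      exact sound3 hne h
    · intro hp
      obtain ⟨u, hu, hgen⟩ := hcyc p hp
      exact complete3 hne hp hu hgen (isOfFinOrder_iff_pow_eq_one.2 (hT u))

theorem type3_equiv {G H : Type} [Group G] [Group H] (e : G ≃* H) (h : Type3 G) : Type3 H := by
  refine ⟨fun hc => h.1 (isCyclic_of_surjective e.symm e.symm.surjective), fun K hK => ?_⟩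
  have h1 : K.comap e.toMonoidHom ≠ ⊤ := by
    intro ht
    apply hK
    rw [eq_top_iff]
    intro x _
    have : e.symm x ∈ K.comap e.toMonoidHom := by rw [ht]; trivial
    rw [Subgroup.mem_comap] at this
    have h2 : e (e.symm x) ∈ K := this
    rwa [MulEquiv.apply_symm_apply] at h2
  have h2 := h.2 _ h1
  let φ : K.comap e.toMonoidHom →* K :=
    { toFun := fun x => ⟨e x.1, x.2⟩
      map_one' := Subtype.ext (map_one e)
      map_mul' := fun x y => Subtype.ext (map_mul e _ _) }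
  refine isCyclic_of_surjective φ ?_
  rintro ⟨x, hx⟩
  refine ⟨⟨e.symm x, ?_⟩, ?_⟩
  · rw [Subgroup.mem_comap]
    show e (e.symm x) ∈ K
    rwa [MulEquiv.apply_symm_apply]
  · ext
    show e (e.symm x) = x
    rw [MulEquiv.apply_symm_apply]

theorem re_comp {α β : Type} [Primcodable α] [Primcodable β] {p : β → Prop} (hp : REPred p)
    {f : α → β} (hf : Computable f) : REPred fun a => p (f a) :=
  Partrec.comp hp hf

theorem MEM3 (hcod : S_COD) (hcen : S_CEN) (hnab : S_NAB) (G : Type) [Group G]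
    [Group.IsFinitelyPresented G] (hinf : Infinite G) (h3 : Type3 G) (hT : OkTors G)
    (f : ℕ → G) (hf : FinSupp f) : ComputablePred fun p : List (List (ℕ × Bool)) ×
      List (ℕ × Bool) => value f p.2 ∈ gens f p.1 := by
  obtain ⟨b, ⟨e⟩⟩ := hcod G
  obtain ⟨U, hU⟩ := words e f hf
  have hinf' : Infinite (PG b) := Infinite.of_injective e.symm e.symm.injective
  have hfg : Group.FG (PG b) := by
    have := fg_of_fp G
    exact Group.fg_of_surjective (f := e.symm.toMonoidHom) e.symm.surjective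
  have h3' : Type3 (PG b) := type3_equiv e.symm h3
  have hord : ∀ (g : PG b) (n : ℕ), (e g) ^ n = 1 ↔ g ^ n = 1 := fun g n => by
    rw [← map_pow, EmbeddingLike.map_eq_one_iff]
  have hT' : OkTors (PG b) := by
    rcases hT with ⟨N, hN0, hN⟩ | hT
    · left
      refine ⟨N, hN0, fun g ⟨n, hn, h⟩ => ?_⟩
      exact (hord g N).1 (hN (e g) ⟨n, hn, (hord g n).2 h⟩)
    · right
      intro g
      obtain ⟨n, hn, h⟩ := hT (e g)
      exact ⟨n, hn, (hord g n).1 h⟩
  have key : ∀ p : List Wd × Wd, value f p.2 ∈ gens f p.1 ↔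
      ev (gen b) (sub U p.2) ∈ Clo b (p.1.map (sub U)) := by
    intro p
    rw [gens_map e f hU, Pool.Agent.L0h91.MON.value_eq e f hU]
    exact Subgroup.mem_map_iff_mem (f := e.toMonoidHom) e.injective
  have hmap : Computable fun p : List Wd × Wd => ((p.1.map (sub U), sub U p.2) : List Wd × Wd) :=
    (Primrec.pair ((map_sub_pr U).comp Primrec.fst)
      (sub_pr.comp (Primrec.const U) Primrec.snd)).to_comp
  rw [ComputablePred.computable_iff_re_compl_re']
  constructor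
  · have h1 : REPred fun q : List Wd × Wd => ev (gen b) q.2 ∈ Clo b q.1 := by
      refine (re_exists (β := Wd × Ct) (R := fun (q : List Wd × Wd) c =>
        Chk b (sub q.1 c.1 ++ FreeGroup.invRev q.2) c.2) ?_).of_eq ?_
      · exact chk_comp b (Primrec.list_append.comp (sub_pr.comp (Primrec.fst.comp Primrec.fst)
          (Primrec.fst.comp Primrec.snd)) (invRev_pr.comp (Primrec.snd.comp Primrec.fst)))
          (Primrec.snd.comp Primrec.snd)
      · intro q
        rw [mem_iff]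
        constructor
        · rintro ⟨⟨v, c⟩, h⟩
          exact ⟨v, c, h⟩
        · rintro ⟨v, c, h⟩
          exact ⟨(v, c), h⟩
    refine REPred.of_eq (p := fun p : List Wd × Wd =>
      ev (gen b) (sub U p.2) ∈ Clo b (p.1.map (sub U))) ?_ (fun p => (key p).symm)
    have h2 := re_comp (p := fun q : List Wd × Wd => ev (gen b) q.2 ∈ Clo b q.1)
      (f := fun p : List Wd × Wd => ((p.1.map (sub U), sub U p.2) : List Wd × Wd)) h1 hmap
    exact h2
  · refine REPred.of_eq (p := fun p : List Wd × Wd =>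
      ev (gen b) (sub U p.2) ∉ Clo b (p.1.map (sub U))) ?_ (fun p => (not_congr (key p)).symm)
    have h2 := re_comp (p := fun q : List Wd × Wd => ev (gen b) q.2 ∉ Clo b q.1)
      (f := fun p : List Wd × Wd => ((p.1.map (sub U), sub U p.2) : List Wd × Wd))
      (mem_core hcen hnab b hinf' hfg h3' hT') hmap
    exact h2

end Pool.Agent.L0h38.MON
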