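import Mathlib
import Pool.Agent.Q223.IS.RE

/-!
# Finitely presented monsters (MP_65b575_al): statements of the modules of project MON
-/

set_option autoImplicit false

namespace Pool.Agent.L0h38.MON

open Pool.Agent.Q223.IS

/-- The value of a word in the letters `x_0, x_1, ...` and their inverses (`(i, true)` is `x_i`,
`(i, false)` is its inverse) for `x_i = f i`. -/
def value {G : Type} [Group G] (f : ℕ → G) (w : List (ℕ × Bool)) : G :=
  (w.map fun q => if q.2 = true then f q.1 else (f q.1)⁻¹).prod

/-- Almost all letters have the value one. -/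
def FinSupp {G : Type} [Group G] (f : ℕ → G) : Prop := ∃ n : ℕ, ∀ i, n ≤ i → f i = 1

/-- The word problem of `G` is solvable, for all finite families of elements. -/
def SolvableWP (G : Type) [Group G] : Prop :=
  ∀ f : ℕ → G, FinSupp f → ComputablePred fun w : List (ℕ × Bool) => value f w = 1

/-- (3) `G` is not cyclic, and every proper subgroup is cyclic. -/
def Type3 (G : Type) [Group G] : Prop :=
  ¬ IsCyclic G ∧ ∀ H : Subgroup G, H ≠ ⊤ → IsCyclic H

/-- (4) There is a prime `p` such that every nontrivial proper subgroup is cyclic of order `p`. -/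
def Type4 (G : Type) [Group G] : Prop :=
  ∃ p : ℕ, p.Prime ∧ ∀ H : Subgroup G, H ≠ ⊥ → H ≠ ⊤ → IsCyclic H ∧ Nat.card H = p

/-- (6) There are only finitely many conjugacy classes. -/
def Type6 (G : Type) [Group G] : Prop := Finite (ConjClasses G)

/-- COD. Hint: `Group.IsFinitelyPresented.exists_mulEquiv_presentedGroup`; the code of `s` is
`(n, hs.toFinset.toList.map fun g => g.toWord.map fun q => (q.1.val, q.2))`; show `relSet b = s`. -/
def S_COD : Prop := ∀ (G : Type) [Group G] [Group.IsFinitelyPresented G],
  ∃ b : ℕ × List Wd, Nonempty (PG b ≃* G)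

/-- FCI: every `m ∈ M` is `g r g⁻¹` with `r` in a finite set of representatives of the classes of
`G`; write `g = h t`, `h ∈ M`, `t` in a finite transversal. -/
def S_FCI : Prop := ∀ (G : Type) [Group G], Finite (ConjClasses G) →
  ∀ M : Subgroup G, M.Normal → M.FiniteIndex → Finite (ConjClasses M)

/-- NFG: `N` is a union of finitely many classes. -/
def S_NFG : Prop := ∀ (G : Type) [Group G], Finite (ConjClasses G) →
  (∀ N : Subgroup G, N.Normal → N.IsFinitelyNormallyGenerated) ∧
    {N : Subgroup G | N.Normal}.Finite

/-- E6 (uses FCI, NFG and `Pool.Agent.V11238.MG.fp_of_finiteIndex`): let `M` be a minimal normal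
subgroup of finite index (`S_NFG`: finitely many normal subgroups); it has no proper subgroups of
finite index (normal core in `G`). Take a maximal proper normal subgroup `N` of `M` and `K = M / N`. -/
def S_E6 : Prop := S_FCI → S_NFG → ∀ (G : Type) [Group G] [Group.IsFinitelyPresented G],
  Infinite G → Finite (ConjClasses G) →
  ∃ (K : Type) (_ : Group K), Group.IsFinitelyPresented K ∧ Infinite K ∧
    Finite (ConjClasses K) ∧ IsSimpleGroup K

/-- CEN: `N` is cyclic, generated by `z`; the set of conjugates of `z` is finite (contained in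
`{z, z⁻¹}` if `z` has infinite order, and in `⟨z⟩` otherwise), so the centralizer of `z` has finite
index; use `R673.MG.cyclic_no_fi` (file Pool/Agent/R673/MG/Types.lean, namespace
`Pool.Agent.R673.MG`). -/
def S_CEN : Prop := ∀ (G : Type) [Group G], Infinite G → Type3 G →
  ∀ N : Subgroup G, N.Normal → N ≠ ⊤ → N ≤ Subgroup.center G

/-- NAB: a commutative finitely generated infinite group has a proper subgroup of finite index
(structure theorem, or a maximal subgroup); `R673.MG.cyclic_no_fi`. -/
def S_NAB : Prop := ∀ (G : Type) [Group G] [Group.FG G], Infinite G → Type3 G →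
  Subgroup.center G ≠ ⊤

/-- E3 (uses CEN, NAB): `K = G / Z(G)`. -/
def S_E3 : Prop := S_CEN → S_NAB → ∀ (G : Type) [Group G] [Group.IsFinitelyPresented G],
  Infinite G → Type3 G →
  ∃ (K : Type) (_ : Group K), Group.IsFinitelyPresented K ∧ Infinite K ∧ Type3 K ∧ IsSimpleGroup K

/-- T43: type (4) implies type (3) (an infinite cyclic group has the proper subgroup of the squares of
infinite order), and `G` is simple: if `z ≠ 1` is central and `h` arbitrary, then
`⟨z⟩ ⊔ ⟨h⟩` is finite (elements of type (4) groups have `g ^ p = 1`), so it is of order `p` and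
`h ∈ ⟨z⟩`. Uses CEN. -/
def S_T43 : Prop := S_CEN → ∀ (G : Type) [Group G], Infinite G → Type4 G →
  Type3 G ∧ IsSimpleGroup G

/-- DEC6 (uses COD): fix a finite list of words for representatives of the classes; positive side:
for some pair `(r, r')` of representatives with `R`, the values are conjugate to `r`, `r'`. -/
def S_DEC6 : Prop := S_COD → ∀ (G : Type) [Group G] [Group.IsFinitelyPresented G],
  Finite (ConjClasses G) → ∀ R : G → G → Prop,
  (∀ a b x y, R a b → R (x * a * x⁻¹) (y * b * y⁻¹)) → ∀ f : ℕ → G, FinSupp f →
  ComputablePred fun p : List (ℕ × Bool) × List (ℕ × Bool) => R (value f p.1) (value f p.2)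

/-- WP3 (uses COD, CEN, NAB). -/
def S_WP3 : Prop := S_COD → S_CEN → S_NAB → ∀ (G : Type) [Group G]
  [Group.IsFinitelyPresented G], Infinite G → Type3 G → SolvableWP G

/-- The subgroup generated by the values of the words of a list. -/
def gens {G : Type} [Group G] (f : ℕ → G) (L : List (List (ℕ × Bool))) : Subgroup G :=
  Subgroup.closure {g | ∃ w ∈ L, g = value f w}

/-- GEN3 (uses COD): the values generate `G` iff each generator is the value of a word in them;
they do not generate `G` iff they are powers of one element. -/
def S_GEN3 : Prop := S_COD → ∀ (G : Type) [Group G]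
  [Group.IsFinitelyPresented G], Type3 G → ∀ f : ℕ → G, FinSupp f →
  ComputablePred fun L : List (List (ℕ × Bool)) => gens f L = ⊤

/-- MEM4 (uses COD, WP3, T43, GEN3). -/
def S_MEM4 : Prop := ∀ (G : Type) [Group G]
  [Group.IsFinitelyPresented G], Infinite G → Type4 G → Type3 G →
  (∀ f : ℕ → G, FinSupp f → ComputablePred fun L : List (List (ℕ × Bool)) => gens f L = ⊤) →
  SolvableWP G → ∀ f : ℕ → G, FinSupp f →
  ComputablePred fun p : List (List (ℕ × Bool)) × List (ℕ × Bool) => value f p.2 ∈ gens f p.1

end Pool.Agent.L0h38.MON
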