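import Pool.Agent.L0h38.MON.DEC6

/-!
# Project MON: the word problem of finitely presented monsters of type (3)
-/

set_option autoImplicit false

namespace Pool.Agent.L0h38.MON

open Pool.Agent.Q223.IS

/-- the code with one more relator -/
def addR (b : ℕ × List Wd) (r : Wd) : ℕ × List Wd := (b.1, r :: b.2)

theorem toAdd (b : ℕ × List Wd) (r : Wd) :
    ∃ F : PG b →* PG (addR b r), ∀ i, F (gen b i) = gen (addR b r) i :=
  PG_lift b (gen (addR b r)) (fun _ hi => gen_big (addR b r) hi)
    (fun _ hw => PG_rel (addR b r) (List.mem_cons_of_mem _ hw))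

theorem fromAdd (b : ℕ × List Wd) (r : Wd) (hr : ev (gen b) r = 1) :
    ∃ F : PG (addR b r) →* PG b, ∀ i, F (gen (addR b r) i) = gen b i := by
  refine PG_lift (addR b r) (gen b) (fun _ hi => gen_big b hi) ?_
  intro w hw
  rcases List.mem_cons.1 hw with rfl | hw
  · exact hr
  · exact PG_rel b hw

/-- certificates for: all generators are trivial in the group with one more relator -/
def Kill (b : ℕ × List Wd) (r : Wd) (C : List Ct) : Prop :=
  ∀ i ∈ List.range b.1, ∃ c ∈ C, Chk (addR b r) [(i, true)] c

theorem kill_iff (b : ℕ × List Wd) (r : Wd) :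
    (∃ C, Kill b r C) ↔ ∀ i < b.1, gen (addR b r) i = 1 := by
  constructor
  · rintro ⟨C, hC⟩ i hi
    obtain ⟨c, -, hc⟩ := hC i (List.mem_range.2 hi)
    have := (triv_iff (addR b r) [(i, true)]).2 ⟨c, hc⟩
    rwa [ev_true] at this
  · intro h
    have : ∀ i, ∃ c, i < b.1 → Chk (addR b r) [(i, true)] c := by
      intro i
      by_cases hi : i < b.1
      · obtain ⟨c, hc⟩ := (triv_iff (addR b r) [(i, true)]).1 (by rw [ev_true]; exact h i hi)
        exact ⟨c, fun _ => hc⟩
      · exact ⟨[], fun h => absurd h hi⟩
    choose c hc using this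
    refine ⟨(List.range b.1).map c, fun i hi => ⟨c i, List.mem_map_of_mem hi, ?_⟩⟩
    exact hc i (List.mem_range.1 hi)

theorem kill_pr (b : ℕ × List Wd) {α : Type} [Primcodable α] {f : α → Wd} {g : α → List Ct}
    (hf : Primrec f) (hg : Primrec g) : PrimrecPred fun a => Kill b (f a) (g a) := by
  unfold Kill
  refine pp_ball (Primrec.const _) ?_
  refine pp_bex (hg.comp Primrec.fst) ?_
  refine chk_pr.comp (Primrec.pair (Primrec.pair (Primrec.const _) ?_) (Primrec.pair ?_
    Primrec.snd))
  · exact Primrec.list_cons.comp (hf.comp (Primrec.fst.comp Primrec.fst)) (Primrec.const _)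
  · exact Primrec.list_cons.comp (Primrec.pair (Primrec.snd.comp Primrec.fst)
      (Primrec.const true)) (Primrec.const [])

/-- certificates for: the word is a nontrivial power of `ζ` -/
def Pw (b : ℕ × List Wd) (ζ : Wd) (m : ℕ) (r : Wd) (d : (ℕ × Bool) × Ct) : Prop :=
  ¬ (d.1.1 % m = 0) ∧
    Chk b (r ++ (if d.1.2 = true then rp d.1.1 ζ else FreeGroup.invRev (rp d.1.1 ζ))) d.2

theorem pw_pr (b : ℕ × List Wd) (ζ : Wd) (m : ℕ) {α : Type} [Primcodable α] {f : α → Wd}
    {g : α → (ℕ × Bool) × Ct} (hf : Primrec f) (hg : Primrec g) :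
    PrimrecPred fun a => Pw b ζ m (f a) (g a) := by
  unfold Pw
  have hk : Primrec fun a => (g a).1.1 := Primrec.fst.comp (Primrec.fst.comp hg)
  have hs : Primrec fun a => (g a).1.2 := Primrec.snd.comp (Primrec.fst.comp hg)
  refine PrimrecPred.and (PrimrecPred.not (pp_eq (Primrec.nat_mod.comp hk (Primrec.const m))
    (Primrec.const 0))) ?_
  refine chk_comp b (Primrec.list_append.comp hf ?_) (Primrec.snd.comp hg)
  exact Primrec.ite (pp_eq hs (Primrec.const true)) (rp_pr hk (Primrec.const ζ))
    (invRev_pr.comp (rp_pr hk (Primrec.const ζ)))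

theorem fg_of_fp (G : Type) [Group G] [h : Group.IsFinitelyPresented G] : Group.FG G := by
  obtain ⟨n, φ, hφ, -⟩ := h.out
  exact Group.fg_iff_exists_freeGroup_hom_surjective_finite.2 ⟨Fin n, inferInstance, φ, hφ⟩

theorem WP3 : S_WP3 := by
  intro hcod hcen hnab G _ _ hinf h3 f hf
  classical
  obtain ⟨b, ⟨e⟩⟩ := hcod G
  obtain ⟨U, hU⟩ := exists_sub e f hf
  have hfg : Group.FG G := fg_of_fp G
  have hZt : Subgroup.center G ≠ ⊤ := hnab G hinf h3
  obtain ⟨⟨z, hzc⟩, hgen⟩ := h3.2 _ hZt
  have hz : ∀ x ∈ Subgroup.center G, ∃ k : ℤ, z ^ k = x := by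
    intro x hx
    obtain ⟨k, hk⟩ := hgen ⟨x, hx⟩
    exact ⟨k, by simpa using congrArg Subtype.val hk⟩
  obtain ⟨ζ, hζ⟩ := gen_word b (e.symm z)
  have hζ' : e (ev (gen b) ζ) = z := by rw [hζ, MulEquiv.apply_symm_apply]
  rw [ComputablePred.computable_iff_re_compl_re']
  constructor
  · refine (re_exists (α := Wd) (β := Ct) (R := fun w c => Chk b (sub U w) c) ?_).of_eq ?_
    · exact chk_comp b (sub_pr.comp (Primrec.const U) Primrec.fst) Primrec.snd
    · intro w
      rw [← triv_iff, ← hU, EmbeddingLike.map_eq_one_iff]
  · refine (re_exists (α := Wd) (β := List Ct × ((ℕ × Bool) × Ct)) (R := fun w c =>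
      Kill b (sub U w) c.1 ∨ Pw b ζ (orderOf z) (sub U w) c.2) ?_).of_eq ?_
    · exact PrimrecPred.or (kill_pr b (sub_pr.comp (Primrec.const U) Primrec.fst)
        (Primrec.fst.comp Primrec.snd)) (pw_pr b ζ _ (sub_pr.comp (Primrec.const U) Primrec.fst)
        (Primrec.snd.comp Primrec.snd))
    · intro w
      constructor
      · rintro ⟨⟨C, d⟩, h | h⟩ h1
        · -- all generators are killed
          have h2 := (kill_iff b _).1 ⟨C, h⟩
          rw [← hU, EmbeddingLike.map_eq_one_iff] at h1
          obtain ⟨F, hF⟩ := fromAdd b _ h1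
          have h4 : ∀ i, gen b i = 1 := by
            intro i
            rcases Nat.lt_or_ge i b.1 with hi | hi
            · rw [← hF, h2 i hi, map_one]
            · exact gen_big b hi
          have h5 : MonoidHom.id (PG b) = 1 := PG_ext b (fun i => by
            rw [h4 i, map_one, map_one])
          have h6 : ∀ y : PG b, y = 1 := fun y => DFunLike.congr_fun h5 y
          obtain ⟨x, y, hxy⟩ := exists_pair_ne G
          apply hxy
          apply e.symm.injective
          rw [h6 (e.symm x), h6 (e.symm y)]
        · obtain ⟨hk, hc⟩ := h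
          obtain ⟨⟨k, s⟩, c⟩ := d
          have h2 := (triv_iff b _).2 ⟨c, hc⟩
          rw [ev_append] at h2
          rw [← hU, EmbeddingLike.map_eq_one_iff] at h1
          rw [h1, one_mul] at h2
          apply hk
          have h4 : z ^ k = 1 := by
            rw [← hζ', ← map_pow, ← ev_rp]
            cases s
            · simp only [Bool.false_eq_true, if_false] at h2
              rw [ev_inv, inv_eq_one] at h2
              rw [h2, map_one]
            · simp only [if_true] at h2
              rw [h2, map_one]
          exact Nat.mod_eq_zero_of_dvd (orderOf_dvd_of_pow_eq_one h4)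
      · intro h1
        by_cases hx : value f w ∈ Subgroup.center G
        · obtain ⟨k, hk⟩ := hz _ hx
          have key : ∀ (n : ℕ) (s : Bool), (if s = true then z ^ n else (z ^ n)⁻¹) =
              (value f w)⁻¹ → ∃ c, Pw b ζ (orderOf z) (sub U w) ((n, s), c) := by
            intro n s hs
            have h5 : ev (gen b) (sub U w ++ (if s = true then rp n ζ else
                FreeGroup.invRev (rp n ζ))) = 1 := by
              apply e.injective
              rw [ev_append, map_mul, hU, map_one]
              have : e (ev (gen b) (if s = true then rp n ζ else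
                FreeGroup.invRev (rp n ζ))) = (value f w)⁻¹ := by
                rw [← hs]
                cases s
                · simp only [Bool.false_eq_true, if_false]
                  rw [ev_inv, ev_rp, map_inv, map_pow, hζ']
                · simp only [if_true]
                  rw [ev_rp, map_pow, hζ']
              rw [this, mul_inv_cancel]
            obtain ⟨c, hc⟩ := (triv_iff b _).1 h5
            refine ⟨c, ?_, hc⟩
            intro hm
            apply h1
            have h6 : z ^ n = 1 := orderOf_dvd_iff_pow_eq_one.1 (Nat.dvd_of_mod_eq_zero hm)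
            rw [h6] at hs
            have h7 : (value f w)⁻¹ = 1 := by rw [← hs]; simp
            exact inv_eq_one.1 h7
          obtain ⟨n, rfl | rfl⟩ := Int.eq_nat_or_neg k
          · obtain ⟨c, hc⟩ := key n false (by
              simp only [Bool.false_eq_true, if_false]
              rw [← hk, zpow_natCast])
            exact ⟨([], ((n, false), c)), Or.inr hc⟩
          · obtain ⟨c, hc⟩ := key n true (by
              simp only [if_true]
              rw [← hk, zpow_neg, zpow_natCast, inv_inv])
            exact ⟨([], ((n, true), c)), Or.inr hc⟩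
        · obtain ⟨F, hF⟩ := toAdd b (sub U w)
          have hK : (F.comp e.symm.toMonoidHom).ker = ⊤ := by
            by_contra hne
            apply hx
            apply hcen G hinf h3 _ inferInstance hne
            rw [MonoidHom.mem_ker]
            show F (e.symm (value f w)) = 1
            rw [← hU, MulEquiv.symm_apply_apply, ev_map]
            have : (fun i => F (gen b i)) = gen (addR b (sub U w)) := funext hF
            rw [this]
            exact PG_rel (addR b (sub U w)) List.mem_cons_self
          obtain ⟨C, hC⟩ := (kill_iff b (sub U w)).2 (by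
            intro i _
            have h2 : e (gen b i) ∈ (F.comp e.symm.toMonoidHom).ker := by rw [hK]; trivial
            rw [MonoidHom.mem_ker] at h2
            have h4 : F (e.symm (e (gen b i))) = 1 := h2
            rw [MulEquiv.symm_apply_apply, hF] at h4
            exact h4)
          exact ⟨(C, ((0, false), [])), Or.inl hC⟩

end Pool.Agent.L0h38.MON
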